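import Mathlib

set_option autoImplicit false

/-! The exponents of the moments from a grid, by convexity -/

namespace Run7.h291.WF

/-- the exponent of the moment of order `2k` when the maximum has the exponent `q` -/
noncomputable def phi (k q : ℝ) : ℝ := if k ≤ q then k ^ 2 else 2 * k * q - q ^ 2

lemma phi_ge {k q v : ℝ} (hv : v ≤ q) : 2 * k * v - v ^ 2 ≤ phi k q := by
  unfold phi
  split_ifs with h
  · nlinarith [sq_nonneg (k - v)]
  · have h1 : 0 ≤ (q - v) * (2 * k - q - v) := mul_nonneg (by linarith) (by linarith [not_le.1 h])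
    nlinarith

lemma phi_eq (k q : ℝ) : phi k q = 2 * k * min k q - (min k q) ^ 2 := by
  unfold phi
  split_ifs with h
  · rw [min_eq_left h]
    ring
  · rw [min_eq_right (not_le.1 h).le]

/-- the deterministic part -/
theorem det {m : ℝ → ℝ} {g ε1 q0 q q1 K ε : ℝ} {J : ℕ} (hJ : 1 ≤ J) (hg : 0 < g) (hJ1 : J * g ≤ q0)
    (hJ2 : q0 ≤ (J + 1) * g) (hq0 : q0 ≤ q) (hq1 : q ≤ q1) (hε1 : 0 < ε1) (hε2 : ε1 ≤ 1)
    (hK : 0 < K) (h0 : m 0 = 0)
    (hconv : ∀ a b c : ℝ, 0 ≤ a → a < b → b < c → (c - a) * m b ≤ (c - b) * m a + (b - a) * m c)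
    (hB : ∀ a k : ℝ, 0 ≤ a → a ≤ k → m k ≤ m a + 2 * (k - a) * (q1 + ε1))
    (hgrid : ∀ j : ℕ, 1 ≤ j → j ≤ J → |m (j * g) - (j * g) ^ 2| ≤ ε1)
    (hE1 : 2 * K * (g + (q1 - q0)) + K * g + g ^ 2 + 2 * g * (q1 + 1) ≤ ε / 2)
    (hE2 : ε1 * (2 + 2 * K + 2 * K / g) ≤ ε / 2) {k : ℝ} (hk : 0 < k) (hkK : k ≤ K) :
    |m k - phi k q| ≤ ε := by
  have hJ' : (1:ℝ) ≤ J := by exact_mod_cast hJ
  have hgrid' : ∀ j : ℕ, j ≤ J → |m (j * g) - (j * g) ^ 2| ≤ ε1 := by
    intro j hj
    rcases Nat.eq_zero_or_pos j with h | h
    · subst h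
      simp [h0, hε1.le]
    · exact hgrid j h hj
  have hgq : g ≤ q0 := by nlinarith
  have hq10 : 0 ≤ q1 - q0 := by linarith
  have hq1p : 0 < q1 := by linarith
  have hKg : 0 ≤ 2 * K / g := by positivity
  have hx1 : 0 ≤ 2 * K * (g + (q1 - q0)) := by positivity
  have hx2 : 0 ≤ K * g := by positivity
  have hx3 : 0 ≤ g ^ 2 := by positivity
  have hx4 : 0 ≤ 2 * g * (q1 + 1) := by positivity
  have hy1 : 0 ≤ ε1 * (2 + 2 * K + 2 * K / g) := by positivity
  have hy2 : ε1 * (2 + 2 * K) ≤ ε1 * (2 + 2 * K + 2 * K / g) := mul_le_mul_of_nonneg_left (by linarith) hε1.le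
  have hy3 : 0 ≤ ε1 * K := by positivity
  rw [abs_le]
  constructor
  · -- the lower bound
    rcases lt_or_ge k g with hkg | hkg
    · have h1 := hB k g hk.le hkg.le
      have h2 := (abs_le.1 (hgrid 1 le_rfl hJ)).1
      rw [Nat.cast_one, one_mul] at h2
      have h3 : phi k q = k ^ 2 := by
        unfold phi
        rw [if_pos (by linarith)]
      rw [h3]
      have h4 : k ^ 2 ≤ g ^ 2 := by nlinarith
      have h5 : 2 * (g - k) * (q1 + ε1) ≤ 2 * g * (q1 + 1) := by
        refine mul_le_mul (by linarith) (by linarith) (by linarith) (by linarith)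
      nlinarith
    · -- the grid point
      obtain ⟨j, hj1, hjJ, hjk, hjg⟩ : ∃ j : ℕ, 1 ≤ j ∧ j ≤ J ∧ j * g ≤ k ∧ min k q ≤ j * g + (g + (q1 - q0)) := by
        rcases le_or_gt (⌊k / g⌋₊) J with h | h
        · refine ⟨⌊k / g⌋₊, ?_, h, ?_, ?_⟩
          · rw [Nat.one_le_floor_iff, one_le_div hg]
            exact hkg
          · have := Nat.floor_le (show 0 ≤ k / g by positivity)
            rwa [le_div_iff₀ hg] at this
          · have := (Nat.lt_floor_add_one (k / g)).le
            rw [div_le_iff₀ hg] at this
            refine (min_le_left _ _).trans ?_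
            nlinarith
        · refine ⟨J, hJ, le_rfl, ?_, ?_⟩
          · have h2 : (J:ℝ) ≤ k / g := le_trans (by exact_mod_cast h.le) (Nat.floor_le (by positivity))
            rwa [le_div_iff₀ hg] at h2
          · refine (min_le_right _ _).trans ?_
            nlinarith
      set b : ℝ := j * g with hb
      have hjc : ((j - 1 : ℕ) : ℝ) = j - 1 := by
        rw [Nat.cast_sub hj1, Nat.cast_one]
      set a : ℝ := ((j - 1 : ℕ) : ℝ) * g with ha
      have hab : a = b - g := by
        rw [ha, hb, hjc]
        ring
      have ha0 : 0 ≤ a := by positivity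
      have hbJ : b ≤ q0 := by
        have : (j:ℝ) ≤ J := by exact_mod_cast hjJ
        nlinarith
      have h2 := abs_le.1 (hgrid j hj1 hjJ)
      have h3 := abs_le.1 (hgrid' (j - 1) (by omega))
      rw [← hb] at h2
      rw [← ha] at h3
      -- the value at `k`
      have h4 : b ^ 2 + 2 * b * (k - b) - ε1 - K * g - 2 * K * ε1 / g ≤ m k := by
        rcases eq_or_lt_of_le hjk with h | h
        · rw [← h, sub_self, mul_zero, add_zero]
          have : 0 ≤ 2 * K * ε1 / g := by positivity
          linarith [h2.1]
        · have h5 := hconv a b k ha0 (by linarith) h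
          have h6 : g * m k ≥ g * m b + (k - b) * (m b - m a) := by
            have e1 : (k - a) * m b = g * m b + (k - b) * m b := by
              rw [hab]
              ring
            have e2 : (b - a) * m k = g * m k := by
              rw [hab]
              ring
            have e3 : (k - b) * (m b - m a) = (k - b) * m b - (k - b) * m a := by ring
            rw [e1, e2] at h5
            rw [e3]
            linarith
          have h7 : g * (2 * b - g) - 2 * ε1 ≤ m b - m a := by
            have : b ^ 2 - a ^ 2 = g * (2 * b - g) := by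
              rw [hab]
              ring
            linarith [h2.1, h3.2]
          have h8 : (k - b) * (g * (2 * b - g) - 2 * ε1) ≤ (k - b) * (m b - m a) :=
            mul_le_mul_of_nonneg_left h7 (by linarith)
          have h9 : g * (b ^ 2 - ε1) ≤ g * m b := mul_le_mul_of_nonneg_left (by linarith [h2.1]) hg.le
          have hb0 : 0 ≤ b := by positivity
          have h10 : (k - b) * g ^ 2 ≤ K * g ^ 2 := mul_le_mul_of_nonneg_right (by linarith) (by positivity)
          have h11 : (k - b) * (2 * ε1) ≤ K * (2 * ε1) := mul_le_mul_of_nonneg_right (by linarith) (by positivity)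
          have h12 : g * (b ^ 2 + 2 * b * (k - b) - ε1 - K * g - 2 * K * ε1 / g) ≤ g * m k := by
            have h13 : g * (2 * K * ε1 / g) = 2 * K * ε1 := by field_simp
            have h14 : g * (b ^ 2 + 2 * b * (k - b) - ε1 - K * g - 2 * K * ε1 / g) =
                g * b ^ 2 + g * (2 * b * (k - b)) - g * ε1 - K * g ^ 2 - g * (2 * K * ε1 / g) := by ring
            rw [h14, h13]
            nlinarith
          exact le_of_mul_le_mul_left h12 hg
      -- comparison
      have h5 : phi k q ≤ b ^ 2 + 2 * b * (k - b) + 2 * K * (g + (q1 - q0)) := by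
        rw [phi_eq]
        have hv1 : b ≤ min k q := le_min hjk (by linarith)
        have hv2 : min k q ≤ k := min_le_left _ _
        set v : ℝ := min k q with hv
        have hb0 : 0 ≤ b := by positivity
        have h6 : 2 * k * v - v ^ 2 = b ^ 2 + 2 * b * (k - b) + (v - b) * (2 * k - v - b) := by ring
        rw [h6]
        have h7 : (v - b) * (2 * k - v - b) ≤ (g + (q1 - q0)) * (2 * K) :=
          mul_le_mul (by linarith) (by linarith) (by linarith) (by linarith)
        linarith
      have h6 : ε1 + 2 * K * ε1 / g ≤ ε1 * (2 + 2 * K + 2 * K / g) := by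
        have : ε1 * (2 + 2 * K + 2 * K / g) = 2 * ε1 + 2 * (ε1 * K) + 2 * K * ε1 / g := by ring
        rw [this]
        linarith
      linarith
  · -- the upper bound
    rcases le_or_gt (J * g) k with hkJ | hkJ
    · have h1 := hB (J * g) k (by positivity) hkJ
      have h2 := (abs_le.1 (hgrid J hJ le_rfl)).2
      have h3 : 2 * k * (J * g) - (J * g) ^ 2 ≤ phi k q := phi_ge (by linarith)
      set b : ℝ := J * g with hb
      have h4 : 2 * (k - b) * (q1 - b) ≤ 2 * K * (g + (q1 - q0)) := by
        have hb0 : 0 ≤ b := by positivity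
        refine mul_le_mul (by linarith) ?_ (by linarith) (by linarith)
        have : q0 ≤ b + g := by
          rw [hb]
          linarith
        linarith
      have h5 : 2 * (k - b) * ε1 ≤ 2 * K * ε1 := by
        have hb0 : 0 ≤ b := by positivity
        exact mul_le_mul_of_nonneg_right (by linarith) hε1.le
      nlinarith
    · -- between two grid points
      set j : ℕ := ⌊k / g⌋₊ with hj
      have hj1 : (j:ℝ) * g ≤ k := by
        have := Nat.floor_le (show 0 ≤ k / g by positivity)
        rwa [le_div_iff₀ hg] at this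
      have hj2 : k < (j + 1) * g := by
        have := Nat.lt_floor_add_one (k / g)
        rwa [div_lt_iff₀ hg] at this
      have hjJ : j + 1 ≤ J := by
        have : (j:ℝ) * g < J * g := lt_of_le_of_lt hj1 hkJ
        have := lt_of_mul_lt_mul_right this hg.le
        exact_mod_cast this
      have hph : phi k q = k ^ 2 := by
        unfold phi
        rw [if_pos (by linarith)]
      rw [hph]
      have h2 := (abs_le.1 (hgrid' j (by omega))).2
      have h3 := (abs_le.1 (hgrid' (j + 1) hjJ)).2
      push_cast at h3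
      set a : ℝ := (j:ℝ) * g with ha
      have hc : ((j:ℝ) + 1) * g = a + g := by
        rw [ha]
        ring
      rw [hc] at h3 hj2
      have ha0 : 0 ≤ a := by positivity
      rcases eq_or_lt_of_le hj1 with h | h
      · rw [← h]
        linarith
      · have h4 := hconv a k (a + g) ha0 h hj2
        have h5 : g * m k ≤ g * (k ^ 2 + g ^ 2 + ε1) := by
          have h6 : (a + g - k) * m a ≤ (a + g - k) * (a ^ 2 + ε1) := mul_le_mul_of_nonneg_left (by linarith) (by linarith)
          have h7 : (k - a) * m (a + g) ≤ (k - a) * ((a + g) ^ 2 + ε1) := mul_le_mul_of_nonneg_left (by linarith) (by linarith)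
          have h8 : (a + g - k) * (a ^ 2 + ε1) + (k - a) * ((a + g) ^ 2 + ε1) =
              g * (k ^ 2 + ε1) + g * ((k - a) * (a + g - k)) := by ring
          have h9 : (k - a) * (a + g - k) ≤ g * g := mul_le_mul (by linarith) (by linarith) (by linarith) hg.le
          have h10 : g * ((k - a) * (a + g - k)) ≤ g * (g * g) := mul_le_mul_of_nonneg_left h9 hg.le
          have h11 : (a + g - a) * m k = g * m k := by ring
          nlinarith
        have h6 := le_of_mul_le_mul_left h5 hg
        linarith

end Run7.h291.WF
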