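import Mathlib

set_option autoImplicit false

/-! Moments over a window as a function of the exponent -/

namespace Run7.h291.WF

open MeasureTheory

/-- the mean of `z^(2k)` over the window `[t, t + H]` -/
noncomputable def Mw (z : ℝ → ℝ) (t H k : ℝ) : ℝ := (1 / H) * ∫ u in t..(t + H), z u ^ (2 * k)

variable {z : ℝ → ℝ} {t H : ℝ}

lemma rp_cont (hz : Continuous z) {a : ℝ} (ha : 0 ≤ a) : Continuous fun u => z u ^ (2 * a) :=
  hz.rpow_const fun _ => Or.inr (by linarith)

lemma Mw_pos (hz : Continuous z) (h0 : ∀ u, 0 ≤ z u) (hH : 0 < H) (hex : ∃ u ∈ Set.Icc t (t + H), 0 < z u) {a : ℝ}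
    (ha : 0 ≤ a) : 0 < Mw z t H a := by
  obtain ⟨u, hu, hu2⟩ := hex
  refine mul_pos (by positivity) ?_
  exact intervalIntegral.integral_pos (by linarith) (rp_cont hz ha).continuousOn
    (fun x _ => Real.rpow_nonneg (h0 x) _) ⟨u, hu, Real.rpow_pos_of_pos hu2 _⟩

lemma Mw_zero (hH : 0 < H) : Mw z t H 0 = 1 := by
  unfold Mw
  simp only [mul_zero, Real.rpow_zero]
  rw [intervalIntegral.integral_const, smul_eq_mul]
  field_simp
  ring

/-- Lyapunov's inequality -/
lemma lyap (hz : Continuous z) (h0 : ∀ u, 0 ≤ z u) (hH : 0 < H) (hex : ∃ u ∈ Set.Icc t (t + H), 0 < z u) {a b c : ℝ}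
    (ha : 0 ≤ a) (hab : a < b) (hbc : b < c) :
    (c - a) * Real.log (Mw z t H b) ≤ (c - b) * Real.log (Mw z t H a) + (b - a) * Real.log (Mw z t H c) := by
  have hA := Mw_pos hz h0 hH hex ha
  have hB := Mw_pos hz h0 hH hex (show 0 ≤ b by linarith)
  have hC := Mw_pos hz h0 hH hex (show 0 ≤ c by linarith)
  set A := Mw z t H a with hAd
  set B := Mw z t H b with hBd
  set C := Mw z t H c with hCd
  have hca : 0 < c - a := by linarith
  set s : ℝ := (b - a) / (c - a) with hs
  have hs0 : 0 ≤ s := div_nonneg (by linarith) hca.le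
  have hs1 : 0 ≤ 1 - s := by
    rw [hs, sub_nonneg, div_le_one hca]
    linarith
  have hsb : (1 - s) * a + s * c = b := by
    rw [hs]
    field_simp
    ring
  have hAC : 0 < A ^ (1 - s) * C ^ s := mul_pos (Real.rpow_pos_of_pos hA _) (Real.rpow_pos_of_pos hC _)
  have key : ∀ u, z u ^ (2 * b) ≤ (A ^ (1 - s) * C ^ s) * ((1 - s) * (z u ^ (2 * a) / A) + s * (z u ^ (2 * c) / C)) := by
    intro u
    rcases eq_or_lt_of_le (h0 u) with h | h
    · rw [← h, Real.zero_rpow (by linarith)]
      have h1 : (0:ℝ) ≤ (0:ℝ) ^ (2 * a) := Real.rpow_nonneg le_rfl _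
      have h2 : (0:ℝ) ≤ (0:ℝ) ^ (2 * c) := Real.rpow_nonneg le_rfl _
      positivity
    · have h1 := Real.geom_mean_le_arith_mean2_weighted hs1 hs0
        (show 0 ≤ z u ^ (2 * a) / A from div_nonneg (Real.rpow_nonneg h.le _) hA.le)
        (show 0 ≤ z u ^ (2 * c) / C from div_nonneg (Real.rpow_nonneg h.le _) hC.le) (by ring)
      have h2 : (z u ^ (2 * a) / A) ^ (1 - s) * (z u ^ (2 * c) / C) ^ s = z u ^ (2 * b) / (A ^ (1 - s) * C ^ s) := by
        rw [Real.div_rpow (Real.rpow_nonneg h.le _) hA.le, Real.div_rpow (Real.rpow_nonneg h.le _) hC.le,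
          ← Real.rpow_mul h.le, ← Real.rpow_mul h.le, div_mul_div_comm, ← Real.rpow_add h]
        congr 2
        rw [← hsb]
        ring
      rw [h2, div_le_iff₀ hAC] at h1
      linarith
  have hint : ∫ u in t..(t + H), z u ^ (2 * b) ≤
      ∫ u in t..(t + H), (A ^ (1 - s) * C ^ s) * ((1 - s) * (z u ^ (2 * a) / A) + s * (z u ^ (2 * c) / C)) := by
    refine intervalIntegral.integral_mono_on (by linarith) ((rp_cont hz (by linarith)).intervalIntegrable _ _) ?_
      fun u _ => key u
    refine Continuous.intervalIntegrable ?_ _ _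
    exact continuous_const.mul ((continuous_const.mul ((rp_cont hz ha).div_const _)).add
      (continuous_const.mul ((rp_cont hz (by linarith)).div_const _)))
  have hq1 : Continuous fun u => (1 - s) * (z u ^ (2 * a) / A) := continuous_const.mul ((rp_cont hz ha).div_const _)
  have hq2 : Continuous fun u => s * (z u ^ (2 * c) / C) :=
    continuous_const.mul ((rp_cont hz (by linarith)).div_const _)
  have hev : ∫ u in t..(t + H), (A ^ (1 - s) * C ^ s) * ((1 - s) * (z u ^ (2 * a) / A) + s * (z u ^ (2 * c) / C)) =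
      (A ^ (1 - s) * C ^ s) * H := by
    rw [intervalIntegral.integral_const_mul, intervalIntegral.integral_add (hq1.intervalIntegrable _ _)
      (hq2.intervalIntegrable _ _), intervalIntegral.integral_const_mul, intervalIntegral.integral_const_mul,
      intervalIntegral.integral_div, intervalIntegral.integral_div]
    have hIA : ∫ u in t..(t + H), z u ^ (2 * a) = H * A := by
      rw [hAd]
      unfold Mw
      field_simp
    have hIC : ∫ u in t..(t + H), z u ^ (2 * c) = H * C := by
      rw [hCd]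
      unfold Mw
      field_simp
    rw [hIA, hIC]
    field_simp
    ring
  have hB2 : B ≤ A ^ (1 - s) * C ^ s := by
    have h1 : B = (1 / H) * ∫ u in t..(t + H), z u ^ (2 * b) := rfl
    rw [h1, one_div, inv_mul_le_iff₀ hH]
    linarith
  have hlog := Real.log_le_log hB hB2
  rw [Real.log_mul (Real.rpow_pos_of_pos hA _).ne' (Real.rpow_pos_of_pos hC _).ne', Real.log_rpow hA,
    Real.log_rpow hC] at hlog
  have h1 := mul_le_mul_of_nonneg_left hlog hca.le
  have h2 : (c - a) * ((1 - s) * Real.log A + s * Real.log C) = (c - b) * Real.log A + (b - a) * Real.log C := by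
    have e1 : (c - a) * s = b - a := by
      rw [hs]
      field_simp
    have e2 : (c - a) * (1 - s) = c - b := by
      rw [mul_sub, e1]
      ring
    calc (c - a) * ((1 - s) * Real.log A + s * Real.log C) =
        ((c - a) * (1 - s)) * Real.log A + ((c - a) * s) * Real.log C := by ring
      _ = _ := by rw [e1, e2]
  linarith

/-- the bound by the maximum -/
lemma Mw_max (hz : Continuous z) (h0 : ∀ u, 0 ≤ z u) (hH : 0 < H) {B : ℝ} (hB : ∀ u ∈ Set.Icc t (t + H), z u ≤ B)
    {a k : ℝ} (ha : 0 ≤ a) (hak : a ≤ k) : Mw z t H k ≤ B ^ (2 * (k - a)) * Mw z t H a := by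
  have hB0 : 0 ≤ B := (h0 t).trans (hB t ⟨le_rfl, by linarith⟩)
  unfold Mw
  have h1 : ∫ u in t..(t + H), z u ^ (2 * k) ≤ ∫ u in t..(t + H), B ^ (2 * (k - a)) * z u ^ (2 * a) := by
    refine intervalIntegral.integral_mono_on (by linarith) ((rp_cont hz (by linarith)).intervalIntegrable _ _)
      ((continuous_const.mul (rp_cont hz ha)).intervalIntegrable _ _) fun u hu => ?_
    rcases eq_or_lt_of_le hak with h | h
    · rw [h, sub_self, mul_zero, Real.rpow_zero, one_mul]
    · rcases eq_or_lt_of_le (h0 u) with h2 | h2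
      · rw [← h2, Real.zero_rpow (by linarith)]
        exact mul_nonneg (Real.rpow_nonneg hB0 _) (Real.rpow_nonneg le_rfl _)
      · have h3 : z u ^ (2 * k) = z u ^ (2 * (k - a)) * z u ^ (2 * a) := by
          rw [← Real.rpow_add h2]
          congr 1
          ring
        rw [h3]
        exact mul_le_mul_of_nonneg_right (Real.rpow_le_rpow h2.le (hB u hu) (by linarith)) (Real.rpow_nonneg h2.le _)
  rw [intervalIntegral.integral_const_mul] at h1
  calc (1 / H) * ∫ u in t..(t + H), z u ^ (2 * k) ≤ (1 / H) * (B ^ (2 * (k - a)) * ∫ u in t..(t + H), z u ^ (2 * a)) :=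
        mul_le_mul_of_nonneg_left h1 (by positivity)
    _ = B ^ (2 * (k - a)) * ((1 / H) * ∫ u in t..(t + H), z u ^ (2 * a)) := by ring

end Run7.h291.WF
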