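import Pool.Agent.Run7.h291.WN.A11
import Pool.Agent.Run7.h291.WN.Stm2
import Pool.Agent.Run7.h291.WF.Det
import Pool.Agent.Run7.h291.WF.Lya

set_option autoImplicit false

/-! The exponents of the moments over almost all windows: a grid of exponents -/

namespace Run7.h291.WF

open Finset Filter MeasureTheory Topology Complex
open Pool.Agent.N748.MG Pool.Agent.N748.MJ
open Run7.h291.WN

/-- one exponent -/
lemma one_exp (hM : S_MNB) (k θ D ε1 ε2 : ℝ) (hk : 0 < k) (hθ : max 1 (k ^ 2) - 1 < θ) (hD : 0 ≤ D) (h1 : 0 < ε1)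
    (h2 : 0 < ε2) : Ev fun X δ => volume {t : ℝ | 0 ≤ t ∧ t ≤ X ∧ ∃ H : ℝ, δ ^ (-θ) ≤ H ∧ H ≤ δ ^ (-D) ∧
      ¬ (0 < Mw (mz δ) t H k ∧ |Real.log (Mw (mz δ) t H k) / Real.log (1 / δ) - k ^ 2| ≤ ε1)} ≤
        ENNReal.ofReal (ε2 * X) := by
  have ha := akp k
  set C : ℝ := |Real.log (akR k)| + k ^ 2 * Real.log 2 + Real.log 2 with hC
  have hl2 : 0 < Real.log 2 := Real.log_pos (by norm_num)
  have hC0 : 0 < C := by positivity
  refine ((core hM k θ D hk hθ hD (min ε2 (1 / 2)) (lt_min h2 (by norm_num))).and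
    (Ev.of_le (show 0 < Real.exp (-(C / ε1)) from Real.exp_pos _))).mono ?_
  rintro X δ hX1 h0 hδ1 ⟨hcore, hδ⟩
  have hX0 : 0 < X := by linarith
  refine le_trans (measure_mono ?_) (hcore.trans (ENNReal.ofReal_le_ofReal
    (mul_le_mul_of_nonneg_right (min_le_left _ _) hX0.le)))
  rintro t ⟨t0, t1, H, hH1, hH2, hH3⟩
  refine ⟨t0, t1, H, hH1, hH2, ?_⟩
  by_contra hcon
  apply hH3
  have h3 : |(1 / H) * (∫ u in t..(t + H), Zk k δ u) - 1| ≤ 1 / 2 := by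
    rw [not_le] at hcon
    exact hcon.le.trans (min_le_right _ _)
  have hH : 0 < H := lt_of_lt_of_le (Real.rpow_pos_of_pos h0 _) hH1
  set L : ℝ := Real.log (1 / δ) with hL
  have hL1 : 1 ≤ L := log_inv_ge h0 hδ1
  have hCL : C ≤ ε1 * L := by
    have h4 : Real.log δ ≤ -(C / ε1) := by
      rw [← Real.log_exp (-(C / ε1))]
      exact Real.log_le_log h0 hδ
    have h5 : L = -Real.log δ := by rw [hL, one_div, Real.log_inv]
    have h6 : C / ε1 ≤ L := by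
      rw [h5]
      linarith
    rw [div_le_iff₀ h1] at h6
    linarith
  have e1 : (1 / H) * (∫ u in t..(t + H), Zk k δ u) = (2 * δ) ^ (k ^ 2) / akR k * Mw (mz δ) t H k := by
    unfold Zk Mw
    rw [intervalIntegral.integral_const_mul]
    ring
  rw [e1, abs_le] at h3
  have hc : 0 < (2 * δ) ^ (k ^ 2) := Real.rpow_pos_of_pos (by linarith) _
  have hcp : 0 < (2 * δ) ^ (k ^ 2) / akR k := div_pos hc ha
  have hMp : 0 < Mw (mz δ) t H k := by
    by_contra h4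
    have : (2 * δ) ^ (k ^ 2) / akR k * Mw (mz δ) t H k ≤ 0 := mul_nonpos_of_nonneg_of_nonpos hcp.le (not_lt.1 h4)
    linarith [h3.1]
  refine ⟨hMp, ?_⟩
  have hlog : Real.log ((2 * δ) ^ (k ^ 2) / akR k * Mw (mz δ) t H k) =
      k ^ 2 * Real.log 2 - k ^ 2 * L - Real.log (akR k) + Real.log (Mw (mz δ) t H k) := by
    rw [Real.log_mul hcp.ne' hMp.ne', Real.log_div hc.ne' ha.ne', Real.log_rpow (by linarith),
      Real.log_mul (by norm_num) h0.ne', hL, one_div, Real.log_inv]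
    ring
  have hpos : 0 < (2 * δ) ^ (k ^ 2) / akR k * Mw (mz δ) t H k := mul_pos hcp hMp
  have u1 : Real.log ((2 * δ) ^ (k ^ 2) / akR k * Mw (mz δ) t H k) ≤ Real.log 2 :=
    Real.log_le_log hpos (by linarith [h3.2])
  have u2 : -Real.log 2 ≤ Real.log ((2 * δ) ^ (k ^ 2) / akR k * Mw (mz δ) t H k) := by
    rw [← Real.log_inv]
    exact Real.log_le_log (by norm_num) (by
      have : (2:ℝ)⁻¹ = 1 / 2 := by norm_num
      rw [this]
      linarith [h3.1])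
  have a1 := le_abs_self (Real.log (akR k))
  have a2 := neg_abs_le (Real.log (akR k))
  have a3 : 0 ≤ k ^ 2 * Real.log 2 := by positivity
  have hL0 : 0 < L := by linarith
  have e2 : Real.log (Mw (mz δ) t H k) / L - k ^ 2 = (Real.log (Mw (mz δ) t H k) - k ^ 2 * L) / L := by
    field_simp
  rw [e2, abs_div, abs_of_pos hL0, div_le_iff₀ hL0, abs_le]
  constructor <;> linarith

/-- the good windows -/
def Good (g ε1 : ℝ) (J : ℕ) (q1 δ t H : ℝ) : Prop :=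
  (∃ u ∈ Set.Icc t (t + H), 0 < mz δ u) ∧
  (∀ j : ℕ, 1 ≤ j → j ≤ J → |Real.log (Mw (mz δ) t H (j * g)) / Real.log (1 / δ) - (j * g) ^ 2| ≤ ε1) ∧
  ∀ u ∈ Set.Icc t (t + H), mz δ u ≤ δ ^ (-(q1 + ε1))

/-- a grid of exponents, and the maximum -/
lemma grid (hM : S_MNB) (hX : S_MAXU) (θ ω g ε1 ε2 : ℝ) (J : ℕ) (hθ : 0 < θ) (hω : 0 ≤ ω) (hg : 0 < g) (hJ : 1 ≤ J)
    (hJg : J * g < Real.sqrt (1 + θ)) (h1 : 0 < ε1) (h2 : 0 < ε2) : Ev fun X δ =>
    volume {t : ℝ | 0 ≤ t ∧ t ≤ X ∧ ∃ H : ℝ, δ ^ (-θ) ≤ H ∧ H ≤ δ ^ (-(θ + ω)) ∧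
      ¬ Good g ε1 J (Real.sqrt (1 + (θ + ω))) δ t H} ≤ ENNReal.ofReal (ε2 * X) := by
  -- finitely many exponents at once
  have hfin : ∀ n : ℕ, n ≤ J → Ev fun X δ => volume {t : ℝ | 0 ≤ t ∧ t ≤ X ∧ ∃ H : ℝ, δ ^ (-θ) ≤ H ∧ H ≤ δ ^ (-(θ + ω)) ∧
      ∃ j : ℕ, 1 ≤ j ∧ j ≤ n ∧ ¬ (0 < Mw (mz δ) t H (j * g) ∧
        |Real.log (Mw (mz δ) t H (j * g)) / Real.log (1 / δ) - (j * g) ^ 2| ≤ ε1)} ≤
        ENNReal.ofReal (n * (ε2 / (2 * J)) * X) := by
    intro n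
    induction n with
    | zero =>
      intro _
      refine (Ev.of_le (d := 1) one_pos).mono fun X δ _ _ _ _ => ?_
      have : {t : ℝ | 0 ≤ t ∧ t ≤ X ∧ ∃ H : ℝ, δ ^ (-θ) ≤ H ∧ H ≤ δ ^ (-(θ + ω)) ∧
          ∃ j : ℕ, 1 ≤ j ∧ j ≤ 0 ∧ ¬ (0 < Mw (mz δ) t H (j * g) ∧
          |Real.log (Mw (mz δ) t H (j * g)) / Real.log (1 / δ) - (j * g) ^ 2| ≤ ε1)} = ∅ := by
        ext t
        simp only [Set.mem_empty_iff_false, iff_false]
        rintro ⟨_, _, H, _, _, j, hj1, hj2, _⟩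
        omega
      rw [this, measure_empty]
      exact bot_le
    | succ n ih =>
      intro hn
      have hk0 : 0 < ((n + 1 : ℕ) : ℝ) * g := by positivity
      have hkJ : ((n + 1 : ℕ) : ℝ) * g < Real.sqrt (1 + θ) := by
        have : ((n + 1 : ℕ) : ℝ) ≤ J := by exact_mod_cast hn
        nlinarith
      have hk2 : max 1 ((((n + 1 : ℕ) : ℝ) * g) ^ 2) - 1 < θ := by
        rw [sub_lt_iff_lt_add]
        refine max_lt (by linarith) ?_
        have h3 := Real.sq_sqrt (show 0 ≤ 1 + θ by linarith)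
        nlinarith [Real.sqrt_nonneg (1 + θ)]
      have hJ0 : (0:ℝ) < J := by exact_mod_cast hJ
      refine ((ih (by omega)).and (one_exp hM _ θ (θ + ω) ε1 (ε2 / (2 * J)) hk0 hk2 (by linarith) h1
        (by positivity))).mono ?_
      rintro X δ hX1 h0 hδ1 ⟨i1, i2⟩
      have hX0 : 0 < X := by linarith
      refine le_trans (measure_mono ?_) ((measure_union_le _ _).trans ((add_le_add i1 i2).trans ?_))
      · rintro t ⟨t0, t1, H, hH1, hH2, j, hj1, hj2, hj3⟩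
        rcases Nat.lt_or_ge j (n + 1) with h | h
        · exact Or.inl ⟨t0, t1, H, hH1, hH2, j, hj1, by omega, hj3⟩
        · have : j = n + 1 := by omega
          subst this
          exact Or.inr ⟨t0, t1, H, hH1, hH2, hj3⟩
      · rw [← ENNReal.ofReal_add (by positivity) (by positivity)]
        refine ENNReal.ofReal_le_ofReal (le_of_eq ?_)
        push_cast
        ring
  have hJ0 : (0:ℝ) < J := by exact_mod_cast hJ
  refine ((hfin J le_rfl).and (hX (θ + ω) (by linarith) (min ε1 (ε2 / 2)) (lt_min h1 (by positivity)))).mono ?_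
  rintro X δ hX1 h0 hδ1 ⟨i1, i2⟩
  have hX0 : 0 < X := by linarith
  refine le_trans (measure_mono ?_) ((measure_union_le _ _).trans ((add_le_add i1 i2).trans ?_))
  · rintro t ⟨t0, t1, H, hH1, hH2, hH3⟩
    by_contra hcon
    simp only [Set.mem_union, not_or] at hcon
    obtain ⟨c1, c2⟩ := hcon
    apply hH3
    have hj : ∀ j : ℕ, 1 ≤ j → j ≤ J → 0 < Mw (mz δ) t H (j * g) ∧
        |Real.log (Mw (mz δ) t H (j * g)) / Real.log (1 / δ) - (j * g) ^ 2| ≤ ε1 := by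
      intro j hj1 hj2
      by_contra h
      exact c1 ⟨t0, t1, H, hH1, hH2, j, hj1, hj2, h⟩
    refine ⟨?_, fun j hj1 hj2 => (hj j hj1 hj2).2, ?_⟩
    · have h3 := (hj 1 le_rfl hJ).1
      by_contra h
      push Not at h
      have hH : 0 < H := lt_of_lt_of_le (Real.rpow_pos_of_pos h0 _) hH1
      have h4 := Mw_max (z := mz δ) (t := t) (H := H) (TMA.cont hδ1) (TMA.mz_nn δ) hH (B := 0) h (a := 0)
        (k := ((1:ℕ):ℝ) * g) le_rfl (by positivity)
      rw [Real.zero_rpow (by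
        rw [Nat.cast_one]
        simp [hg.ne']), zero_mul] at h4
      linarith
    · intro u hu
      by_contra h
      refine c2 ⟨t0, t1, u, hu.1, hu.2.trans (by linarith), ?_⟩
      refine le_trans ?_ (not_le.1 h).le
      refine Real.rpow_le_rpow_of_exponent_ge h0 (by linarith) ?_
      have := min_le_left ε1 (ε2 / 2)
      linarith
  · have hq : min ε1 (ε2 / 2) ≤ ε2 / 2 := min_le_right _ _
    have hq0 : 0 < min ε1 (ε2 / 2) := lt_min h1 (by positivity)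
    rw [← ENNReal.ofReal_add (by positivity) (by positivity)]
    refine ENNReal.ofReal_le_ofReal ?_
    have e1 : (J:ℝ) * (ε2 / (2 * J)) * X = ε2 / 2 * X := by
      field_simp
    rw [e1]
    nlinarith

/-- the exponents of the moments and of the maximum for a good window -/
lemma good_det {g ε1 q0 q1 K ε δ t H τ : ℝ} {J : ℕ} (hJ : 1 ≤ J) (hg : 0 < g) (hJ1 : J * g ≤ q0)
    (hJ2 : q0 ≤ (J + 1) * g) (hq0 : q0 ≤ Real.sqrt (1 + τ)) (hq1 : Real.sqrt (1 + τ) ≤ q1) (hε1 : 0 < ε1)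
    (hε2 : ε1 ≤ 1) (hK : 0 < K) (hH : 0 < H) (h0 : 0 < δ) (hδ1 : δ ≤ 1 / 16)
    (hE1 : 2 * K * (g + (q1 - q0)) + K * g + g ^ 2 + 2 * g * (q1 + 1) ≤ ε / 2)
    (hE2 : ε1 * (2 + 2 * K + 2 * K / g) ≤ ε / 2) (hG : Good g ε1 J q1 δ t H) {k : ℝ} (hk : 0 < k) (hkK : k ≤ K) :
    0 < Mw (mz δ) t H k ∧ |Real.log (Mw (mz δ) t H k) / Real.log (1 / δ) - phi k (Real.sqrt (1 + τ))| ≤ ε := by
  obtain ⟨G1, G2, G3⟩ := hG
  have hzc : Continuous (mz δ) := TMA.cont hδ1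
  have hz0 : ∀ u, 0 ≤ mz δ u := TMA.mz_nn δ
  set L : ℝ := Real.log (1 / δ) with hL
  have hL1 : 1 ≤ L := log_inv_ge h0 hδ1
  have hL0 : 0 < L := by linarith
  refine ⟨Mw_pos hzc hz0 hH G1 hk.le, ?_⟩
  refine det (m := fun k => Real.log (Mw (mz δ) t H k) / L) hJ hg hJ1 hJ2 hq0 hq1 hε1 hε2 hK ?_ ?_ ?_ G2 hE1 hE2 hk hkK
  · rw [Mw_zero hH, Real.log_one, zero_div]
  · intro a b c ha hab hbc
    have h1 := lyap hzc hz0 hH G1 ha hab hbc
    have h2 : (c - b) * (Real.log (Mw (mz δ) t H a) / L) + (b - a) * (Real.log (Mw (mz δ) t H c) / L) =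
        ((c - b) * Real.log (Mw (mz δ) t H a) + (b - a) * Real.log (Mw (mz δ) t H c)) / L := by ring
    rw [h2, ← mul_div_assoc]
    exact div_le_div_of_nonneg_right h1 hL0.le
  · intro a k ha hak
    have h1 := Mw_max hzc hz0 hH G3 ha hak
    have hMk := Mw_pos hzc hz0 hH G1 (show 0 ≤ k by linarith)
    have hMa := Mw_pos hzc hz0 hH G1 ha
    have hB : 0 < δ ^ (-(q1 + ε1)) := Real.rpow_pos_of_pos h0 _
    have h2 := Real.log_le_log hMk h1
    rw [Real.log_mul (Real.rpow_pos_of_pos hB _).ne' hMa.ne', Real.log_rpow hB, Real.log_rpow h0] at h2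
    have h3 : Real.log δ = -L := by
      rw [hL, one_div, Real.log_inv]
      ring
    rw [h3] at h2
    rw [div_le_iff₀ hL0, add_mul, div_mul_cancel₀ _ hL0.ne']
    linarith

end Run7.h291.WF
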