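import Pool.Agent.Run7.h291.WF.Fix

set_option autoImplicit false

/-! Freezing: the exponents of all moments and of the maximum in almost all windows -/

namespace Run7.h291.WF

open Finset Filter MeasureTheory Topology Complex
open Pool.Agent.N748.MG Pool.Agent.N748.MJ
open Run7.h291.WN

/-- the description of a window of length `δ^(-τ)` -/
def Fz (K ε δ t τ : ℝ) : Prop :=
  (∀ k : ℝ, 0 < k → k ≤ K → 0 < Mw (mz δ) t (δ ^ (-τ)) k ∧
    |Real.log (Mw (mz δ) t (δ ^ (-τ)) k) / Real.log (1 / δ) - phi k (Real.sqrt (1 + τ))| ≤ ε) ∧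
  (∀ u ∈ Set.Icc t (t + δ ^ (-τ)), mz δ u ≤ δ ^ (-(Real.sqrt (1 + τ) + ε))) ∧
  ∃ u ∈ Set.Icc t (t + δ ^ (-τ)), δ ^ (-(Real.sqrt (1 + τ) - ε)) ≤ mz δ u

lemma sqrt_diff {x ω : ℝ} (hx : 0 ≤ x) (hω : 0 ≤ ω) : Real.sqrt (1 + x + ω) - Real.sqrt (1 + x) ≤ ω := by
  have h1 : 1 ≤ Real.sqrt (1 + x) := Real.one_le_sqrt.2 (by linarith)
  have h2 : Real.sqrt (1 + x + ω) ≤ Real.sqrt (1 + x) + ω := by
    rw [Real.sqrt_le_left (by linarith)]
    have h3 := Real.sq_sqrt (show 0 ≤ 1 + x by linarith)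
    nlinarith
  linarith

/-- the maximum from a large moment -/
lemma max_low {ε δ t H K q : ℝ} (hH : 0 < H) (h0 : 0 < δ) (hδ1 : δ ≤ 1 / 16) (hK : 0 < K) (hqK : q < K)
    (hq : q ^ 2 + 1 < 2 * K * ε) (hM : 0 < Mw (mz δ) t H K)
    (h : |Real.log (Mw (mz δ) t H K) / Real.log (1 / δ) - phi K q| ≤ 1) :
    ∃ u ∈ Set.Icc t (t + H), δ ^ (-(q - ε)) ≤ mz δ u := by
  by_contra hcon
  push Not at hcon
  set L : ℝ := Real.log (1 / δ) with hL
  have hL1 : 1 ≤ L := log_inv_ge h0 hδ1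
  have hL0 : 0 < L := by linarith
  have h1 := Mw_max (z := mz δ) (t := t) (H := H) (TMA.cont hδ1) (TMA.mz_nn δ) hH (B := δ ^ (-(q - ε)))
    (fun u hu => (hcon u hu).le) (a := 0) (k := K) le_rfl hK.le
  rw [Mw_zero hH, mul_one, sub_zero] at h1
  have hB : 0 < δ ^ (-(q - ε)) := Real.rpow_pos_of_pos h0 _
  have h2 := Real.log_le_log hM h1
  rw [Real.log_rpow hB, Real.log_rpow h0] at h2
  have h3 : Real.log δ = -L := by
    rw [hL, one_div, Real.log_inv]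
    ring
  rw [h3] at h2
  have h4 := (abs_le.1 h).1
  have h5 : phi K q = 2 * K * q - q ^ 2 := by
    unfold phi
    rw [if_neg (not_le.2 hqK)]
  rw [h5] at h4
  have h6 : (2 * K * q - q ^ 2 - 1) * L ≤ Real.log (Mw (mz δ) t H K) := by
    rw [← le_div_iff₀ hL0]
    linarith
  have h7 : (2 * K * q - q ^ 2 - 1) * L ≤ 2 * K * (q - ε) * L := by
    calc _ ≤ _ := h6
      _ ≤ _ := h2
      _ = _ := by ring
  have h8 := le_of_mul_le_mul_right h7 hL0
  nlinarith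

theorem freeze (hM : S_MNB) (hX : S_MAXU) (θ1 θ2 K ε : ℝ) (h1 : 0 < θ1) (h12 : θ1 ≤ θ2) (hK : 0 < K) (hε : 0 < ε) :
    Ev fun X δ => volume {t : ℝ | 0 ≤ t ∧ t ≤ X ∧ ∃ τ ∈ Set.Icc θ1 θ2, ¬ Fz K ε δ t τ} ≤ ENNReal.ofReal (ε * X) := by
  set ε' : ℝ := min ε 1 with hε'
  have hε'0 : 0 < ε' := lt_min hε one_pos
  have hε'1 : ε' ≤ 1 := min_le_right _ _
  have hε'2 : ε' ≤ ε := min_le_left _ _
  set K' : ℝ := max K ((2 + θ2) / ε + (2 + θ2)) with hK'
  have hK'0 : 0 < K' := lt_max_of_lt_left hK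
  have hK'1 : K ≤ K' := le_max_left _ _
  have hK'2 : (2 + θ2) / ε + (2 + θ2) ≤ K' := le_max_right _ _
  have hθ2 : 0 < θ2 := by linarith
  set g : ℝ := min (1 / 2) (ε' / (2 * (5 * K' + 2 * θ2 + 7))) with hg
  have hg0 : 0 < g := lt_min (by norm_num) (by positivity)
  have hg1 : g ≤ 1 / 2 := min_le_left _ _
  have hg2 : g * (5 * K' + 2 * θ2 + 7) ≤ ε' / 2 := by
    have h3 : g ≤ ε' / (2 * (5 * K' + 2 * θ2 + 7)) := min_le_right _ _
    have h4 : 0 < 5 * K' + 2 * θ2 + 7 := by positivity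
    calc g * (5 * K' + 2 * θ2 + 7) ≤ ε' / (2 * (5 * K' + 2 * θ2 + 7)) * (5 * K' + 2 * θ2 + 7) :=
          mul_le_mul_of_nonneg_right h3 h4.le
      _ = ε' / 2 := by field_simp
  set ε1 : ℝ := min 1 (ε' / (2 * (2 + 2 * K' + 2 * K' / g))) with hε1
  have hd0 : 0 < 2 + 2 * K' + 2 * K' / g := by positivity
  have hε10 : 0 < ε1 := lt_min one_pos (by positivity)
  have hε11 : ε1 ≤ 1 := min_le_left _ _
  have hε12 : ε1 * (2 + 2 * K' + 2 * K' / g) ≤ ε' / 2 := by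
    have h3 : ε1 ≤ ε' / (2 * (2 + 2 * K' + 2 * K' / g)) := min_le_right _ _
    calc ε1 * (2 + 2 * K' + 2 * K' / g) ≤ ε' / (2 * (2 + 2 * K' + 2 * K' / g)) * (2 + 2 * K' + 2 * K' / g) :=
          mul_le_mul_of_nonneg_right h3 hd0.le
      _ = ε' / 2 := by field_simp
  have hε13 : ε1 ≤ ε' / 4 := by
    have h3 : 0 ≤ ε1 * (2 * K' + 2 * K' / g) := by positivity
    nlinarith
  have hg3 : g ≤ ε' / 4 := by
    have h3 : 0 ≤ g * (5 * K' + 2 * θ2 + 5) := by positivity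
    nlinarith
  set N : ℕ := ⌈(θ2 - θ1) / g⌉₊ with hN
  have hN0 : (0:ℝ) < N + 1 := by positivity
  -- one interval of lengths
  have hone : ∀ i : ℕ, i ≤ N → Ev fun X δ => volume {t : ℝ | 0 ≤ t ∧ t ≤ X ∧ ∃ τ ∈ Set.Icc θ1 θ2,
      θ1 + i * g ≤ τ ∧ τ ≤ θ1 + i * g + g ∧ ¬ Fz K ε δ t τ} ≤ ENNReal.ofReal (ε' / (N + 1) * X) := by
    intro i hi
    set θ : ℝ := θ1 + i * g with hθ
    have hθ0 : 0 < θ := by positivity
    -- the number of exponents
    set q0 : ℝ := Real.sqrt (1 + θ) with hq0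
    have hq01 : 1 ≤ q0 := Real.one_le_sqrt.2 (by linarith)
    obtain ⟨J, hJ, hJ1, hJ2⟩ : ∃ J : ℕ, 1 ≤ J ∧ J * g < q0 ∧ q0 ≤ (J + 1) * g := by
      have h3 : 2 ≤ q0 / g := by
        rw [le_div_iff₀ hg0]
        linarith
      have h4 : 2 ≤ ⌈q0 / g⌉₊ := by
        have := Nat.le_ceil (q0 / g)
        exact_mod_cast h3.trans this
      refine ⟨⌈q0 / g⌉₊ - 1, by omega, ?_, ?_⟩
      · have h5 : ((⌈q0 / g⌉₊ - 1 : ℕ) : ℝ) < q0 / g := by
          rw [← Nat.lt_ceil]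
          omega
        rwa [lt_div_iff₀ hg0] at h5
      · have h5 := Nat.le_ceil (q0 / g)
        rw [div_le_iff₀ hg0] at h5
        have h6 : (((⌈q0 / g⌉₊ - 1 : ℕ) : ℝ) + 1) = (⌈q0 / g⌉₊ : ℝ) := by
          rw [Nat.cast_sub (by omega)]
          push_cast
          ring
        rw [h6]
        exact h5
    refine (grid hM hX θ g g ε1 (ε' / (N + 1)) J hθ0 hg0.le hg0 hJ hJ1 hε10 (by positivity)).mono ?_
    intro X δ hX1 h0 hδ1 hvol
    refine le_trans (measure_mono ?_) hvol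
    rintro t ⟨t0, t1, τ, hτ, hτ1, hτ2, hτ3⟩
    have hδ' : δ ≤ 1 := by linarith
    refine ⟨t0, t1, δ ^ (-τ), Real.rpow_le_rpow_of_exponent_ge h0 hδ' (by linarith),
      Real.rpow_le_rpow_of_exponent_ge h0 hδ' (by linarith), fun hG => hτ3 ?_⟩
    have hH : 0 < δ ^ (-τ) := Real.rpow_pos_of_pos h0 _
    have hτ0 : 0 < τ := by linarith [hτ.1]
    set q : ℝ := Real.sqrt (1 + τ) with hq
    set q1 : ℝ := Real.sqrt (1 + (θ + g)) with hq1
    have hqq0 : q0 ≤ q := Real.sqrt_le_sqrt (by linarith)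
    have hqq1 : q ≤ q1 := Real.sqrt_le_sqrt (by linarith)
    have hq10 : q1 - q0 ≤ g := by
      have h3 := sqrt_diff (x := θ) (ω := g) hθ0.le hg0.le
      have h4 : 1 + θ + g = 1 + (θ + g) := by ring
      rwa [h4] at h3
    have hθle : θ ≤ θ2 := by
      have : τ ≤ θ2 := hτ.2
      linarith
    have hq1b : q1 ≤ 2 + θ2 := by
      rw [hq1, Real.sqrt_le_left (by linarith)]
      nlinarith
    have hE1 : 2 * K' * (g + (q1 - q0)) + K' * g + g ^ 2 + 2 * g * (q1 + 1) ≤ ε' / 2 := by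
      have h3 : 2 * K' * (g + (q1 - q0)) ≤ 2 * K' * (g + g) := by gcongr
      have h4 : g ^ 2 ≤ g * 1 := by
        rw [sq]
        gcongr
        linarith
      have h5 : 2 * g * (q1 + 1) ≤ 2 * g * (3 + θ2) := mul_le_mul_of_nonneg_left (by linarith) (by positivity)
      have h6 : 2 * K' * (g + g) + K' * g + g * 1 + 2 * g * (3 + θ2) = g * (5 * K' + 2 * θ2 + 7) := by ring
      linarith
    have hgd : ∀ k : ℝ, 0 < k → k ≤ K' → 0 < Mw (mz δ) t (δ ^ (-τ)) k ∧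
        |Real.log (Mw (mz δ) t (δ ^ (-τ)) k) / Real.log (1 / δ) - phi k q| ≤ ε' := fun k hk hkK =>
      good_det hJ hg0 hJ1.le hJ2 hqq0 hqq1 hε10 hε11 hK'0 hH h0 hδ1 hE1 hε12 hG hk hkK
    refine ⟨fun k hk hkK => ⟨(hgd k hk (hkK.trans hK'1)).1, (hgd k hk (hkK.trans hK'1)).2.trans hε'2⟩, ?_, ?_⟩
    · intro u hu
      refine (hG.2.2 u hu).trans ?_
      refine Real.rpow_le_rpow_of_exponent_ge h0 hδ' ?_
      linarith
    · have h3 := hgd K' hK'0 le_rfl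
      have hqK : q < K' := by
        have : 0 < (2 + θ2) / ε := by positivity
        linarith
      have hq2 : q ^ 2 = 1 + τ := Real.sq_sqrt (by linarith)
      refine max_low hH h0 hδ1 hK'0 hqK ?_ h3.1 (h3.2.trans hε'1)
      rw [hq2]
      have h4 : (2 + θ2) ≤ K' * ε := by
        have h5 : (2 + θ2) / ε ≤ K' := by linarith
        rwa [div_le_iff₀ hε] at h5
      have : τ ≤ θ2 := hτ.2
      linarith
  -- all intervals
  have hall : ∀ n : ℕ, n ≤ N + 1 → Ev fun X δ => volume {t : ℝ | 0 ≤ t ∧ t ≤ X ∧ ∃ τ ∈ Set.Icc θ1 θ2,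
      ∃ i : ℕ, i < n ∧ θ1 + i * g ≤ τ ∧ τ ≤ θ1 + i * g + g ∧ ¬ Fz K ε δ t τ} ≤
        ENNReal.ofReal (n * (ε' / (N + 1)) * X) := by
    intro n
    induction n with
    | zero =>
      intro _
      refine (Ev.of_le (d := 1) one_pos).mono fun X δ _ _ _ _ => ?_
      have : {t : ℝ | 0 ≤ t ∧ t ≤ X ∧ ∃ τ ∈ Set.Icc θ1 θ2,
          ∃ i : ℕ, i < 0 ∧ θ1 + i * g ≤ τ ∧ τ ≤ θ1 + i * g + g ∧ ¬ Fz K ε δ t τ} = ∅ := by
        ext t
        simp only [Set.mem_empty_iff_false, iff_false]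
        rintro ⟨_, _, τ, _, i, hi, _⟩
        omega
      rw [this, measure_empty]
      exact bot_le
    | succ n ih =>
      intro hn
      refine ((ih (by omega)).and (hone n (by omega))).mono ?_
      rintro X δ hX1 h0 hδ1 ⟨i1, i2⟩
      have hX0 : 0 < X := by linarith
      refine le_trans (measure_mono ?_) ((measure_union_le _ _).trans ((add_le_add i1 i2).trans ?_))
      · rintro t ⟨t0, t1, τ, hτ, i, hi, hi1, hi2, hi3⟩
        rcases Nat.lt_or_ge i n with h | h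
        · exact Or.inl ⟨t0, t1, τ, hτ, i, h, hi1, hi2, hi3⟩
        · have : i = n := by omega
          subst this
          exact Or.inr ⟨t0, t1, τ, hτ, hi1, hi2, hi3⟩
      · rw [← ENNReal.ofReal_add (by positivity) (by positivity)]
        refine ENNReal.ofReal_le_ofReal (le_of_eq ?_)
        push_cast
        ring
  refine (hall (N + 1) le_rfl).mono ?_
  intro X δ hX1 h0 hδ1 hvol
  have hX0 : 0 < X := by linarith
  refine le_trans (measure_mono ?_) (hvol.trans ?_)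
  · rintro t ⟨t0, t1, τ, hτ, hτ3⟩
    have hτg : 0 ≤ (τ - θ1) / g := div_nonneg (by linarith [hτ.1]) hg0.le
    refine ⟨t0, t1, τ, hτ, ⌊(τ - θ1) / g⌋₊, ?_, ?_, ?_, hτ3⟩
    · have h3 : ⌊(τ - θ1) / g⌋₊ ≤ N := by
        have h4 := Nat.floor_le hτg
        have h5 : (τ - θ1) / g ≤ (θ2 - θ1) / g := by
          have : τ ≤ θ2 := hτ.2
          gcongr
        have h6 := Nat.le_ceil ((θ2 - θ1) / g)
        exact_mod_cast h4.trans (h5.trans h6)
      omega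
    · have h4 := Nat.floor_le hτg
      rw [le_div_iff₀ hg0] at h4
      linarith
    · have h4 := (Nat.lt_floor_add_one ((τ - θ1) / g)).le
      rw [div_le_iff₀ hg0] at h4
      linarith
  · refine ENNReal.ofReal_le_ofReal ?_
    have e1 : ((N + 1 : ℕ) : ℝ) * (ε' / (N + 1)) * X = ε' * X := by
      push_cast
      field_simp
    rw [e1]
    exact mul_le_mul_of_nonneg_right hε'2 hX0.le

end Run7.h291.WF
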