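import Pool.Agent.Run7.h291.WF.Frz

set_option autoImplicit false

/-! Below the threshold the moments over windows are too small -/

namespace Run7.h291.WF

open Finset Filter MeasureTheory Topology Complex
open Pool.Agent.N748.MG Pool.Agent.N748.MJ
open Run7.h291.WN

lemma phi_low {k τ θ : ℝ} (hτ0 : 0 < τ) (hτ : τ ≤ θ) (hk : Real.sqrt (1 + θ) < k) :
    phi k (Real.sqrt (1 + τ)) ≤ k ^ 2 - (k - Real.sqrt (1 + θ)) ^ 2 := by
  have h1 : Real.sqrt (1 + τ) ≤ Real.sqrt (1 + θ) := Real.sqrt_le_sqrt (by linarith)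
  have h2 : 0 ≤ Real.sqrt (1 + τ) := Real.sqrt_nonneg _
  unfold phi
  rw [if_neg (by linarith)]
  nlinarith

theorem below (hM : S_MNB) (hX : S_MAXU) (k θ1 θ2 : ℝ) (h1 : 0 < θ1) (h12 : θ1 ≤ θ2)
    (hkθ : θ2 < k ^ 2 - 1) (hk : 0 < k) : ∃ c : ℝ, 0 < c ∧ ∀ ε : ℝ, 0 < ε → Ev fun X δ =>
    volume {t : ℝ | 0 ≤ t ∧ t ≤ X ∧ ∃ H : ℝ, δ ^ (-θ1) ≤ H ∧ H ≤ δ ^ (-θ2) ∧
      δ ^ c * (akR k * (2 * δ) ^ (-(k ^ 2))) ≤ Mw (mz δ) t H k} ≤ ENNReal.ofReal (ε * X) := by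
  have hq : Real.sqrt (1 + θ2) < k := by
    rw [Real.sqrt_lt' hk]
    linarith
  set c : ℝ := (k - Real.sqrt (1 + θ2)) ^ 2 / 4 with hc
  have hc0 : 0 < c := by
    have : 0 < k - Real.sqrt (1 + θ2) := by linarith
    positivity
  have ha := akp k
  refine ⟨c, hc0, fun ε hε => ?_⟩
  set A : ℝ := akR k * 2 ^ (-(k ^ 2)) with hA
  have hA0 : 0 < A := by positivity
  refine ((freeze hM hX θ1 θ2 k (min ε c) h1 h12 hk (lt_min hε hc0)).and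
    (Ev.small (C := 1) (c := c) (e := A / 2) hc0 (by positivity))).mono ?_
  rintro X δ hX1 h0 hδ1 ⟨hvol, s1⟩
  rw [one_mul] at s1
  have hX0 : 0 < X := by linarith
  refine le_trans (measure_mono ?_) (hvol.trans (ENNReal.ofReal_le_ofReal
    (mul_le_mul_of_nonneg_right (min_le_left _ _) hX0.le)))
  rintro t ⟨t0, t1, H, hH1, hH2, hH3⟩
  set L : ℝ := Real.log (1 / δ) with hL
  have hL1 : 1 ≤ L := log_inv_ge h0 hδ1
  have hL0 : 0 < L := by linarith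
  have hH : 0 < H := lt_of_lt_of_le (Real.rpow_pos_of_pos h0 _) hH1
  have hlogδ : Real.log δ = -L := by
    rw [hL, one_div, Real.log_inv]
    ring
  set τ : ℝ := Real.log H / L with hτ
  have hHτ : δ ^ (-τ) = H := by
    rw [← expL h0, ← hL, hτ, div_mul_cancel₀ _ hL0.ne', Real.exp_log hH]
  have hlow : θ1 ≤ τ := by
    rw [hτ, le_div_iff₀ hL0]
    have := Real.log_le_log (Real.rpow_pos_of_pos h0 _) hH1
    rw [Real.log_rpow h0, hlogδ] at this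
    linarith
  have hupp : τ ≤ θ2 := by
    rw [hτ, div_le_iff₀ hL0]
    have := Real.log_le_log hH hH2
    rw [Real.log_rpow h0, hlogδ] at this
    linarith
  refine ⟨t0, t1, τ, ⟨hlow, hupp⟩, fun hF => ?_⟩
  obtain ⟨g1, g2⟩ := hF.1 k hk le_rfl
  rw [hHτ] at g1 g2
  have g3 := (abs_le.1 g2).2
  have g4 : min ε c ≤ c := min_le_right _ _
  have g5 := phi_low (k := k) (by linarith : 0 < τ) hupp hq
  have g6 : Real.log (Mw (mz δ) t H k) ≤ (k ^ 2 - 3 * c) * L := by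
    rw [← div_le_iff₀ hL0]
    have : k ^ 2 - (k - Real.sqrt (1 + θ2)) ^ 2 = k ^ 2 - 4 * c := by
      rw [hc]
      ring
    linarith
  have g7 : Mw (mz δ) t H k ≤ δ ^ (-(k ^ 2 - 3 * c)) := by
    rw [← expL h0, ← hL, ← Real.exp_log g1]
    exact Real.exp_le_exp.2 g6
  have hp : 0 < δ ^ (-(k ^ 2 - 3 * c)) := Real.rpow_pos_of_pos h0 _
  have g8 : δ ^ (-(k ^ 2 - 3 * c)) = δ ^ (-(k ^ 2)) * δ ^ c * δ ^ c * δ ^ c := by
    rw [← Real.rpow_add h0, ← Real.rpow_add h0, ← Real.rpow_add h0]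
    congr 1
    ring
  have g9 : (2 * δ) ^ (-(k ^ 2)) = 2 ^ (-(k ^ 2)) * δ ^ (-(k ^ 2)) := Real.mul_rpow (by norm_num) h0.le
  have hd : 0 < δ ^ c := Real.rpow_pos_of_pos h0 _
  have hd1 : δ ^ c ≤ 1 := Real.rpow_le_one h0.le (by linarith) hc0.le
  have hk2 : 0 < δ ^ (-(k ^ 2)) := Real.rpow_pos_of_pos h0 _
  rw [g9] at hH3
  have g10 : δ ^ (-(k ^ 2)) * δ ^ c * δ ^ c * δ ^ c ≤ δ ^ (-(k ^ 2)) * δ ^ c * (A / 2) := by
    calc δ ^ (-(k ^ 2)) * δ ^ c * δ ^ c * δ ^ c ≤ δ ^ (-(k ^ 2)) * δ ^ c * δ ^ c * 1 :=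
          mul_le_mul_of_nonneg_left hd1 (by positivity)
      _ = δ ^ (-(k ^ 2)) * δ ^ c * δ ^ c := mul_one _
      _ ≤ δ ^ (-(k ^ 2)) * δ ^ c * (A / 2) := mul_le_mul_of_nonneg_left s1 (by positivity)
  have g11 : δ ^ c * (akR k * (2 ^ (-(k ^ 2)) * δ ^ (-(k ^ 2)))) = δ ^ (-(k ^ 2)) * δ ^ c * A := by
    rw [hA]
    ring
  rw [g11] at hH3
  rw [g8] at g7
  have g12 : 0 < δ ^ (-(k ^ 2)) * δ ^ c * A := by positivity
  linarith

end Run7.h291.WF
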